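import Pool.Agent.Run7.h205.CR.Fin

/-!
# Distinct circumradii of points in general position: `h(n) ≤ n ^ (2 + o(1))`

`Pool.Agent.Run7.h205.CR.GenPos P`: no three points of `P` on a line, no four on a circle;
`Pool.Agent.Run7.h205.CR.Radii P`: the radii of the circles through three points of `P`.

Proof. Take the integer points of a box `{0, ..., m - 1} ^ D` on one sphere (Behrend). No three of
them are on a line, so that a generic linear projection to the plane is in general position: for
four points the condition that the images are on a circle is a nontrivial polynomial equation for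
the projection. The radius of the circle through the images of `x, y, z` depends only on
`(y - x, z - x)`, which takes at most `(2 m - 1) ^ (2 D)` values. Take `D` of the order of the square
root of `log n`.
-/

set_option autoImplicit false

namespace Pool.Agent.Results.MP_cd3201_co.QuadraticUpperBound

open Pool.Agent.Run7.h205.CR

/-- `h(n)`: the least number of distinct radii of `n` points in general position. -/
noncomputable def h (n : ℕ) : ℕ :=
  sInf {k | ∃ P : Finset Pl, P.card = n ∧ GenPos P ∧ (Radii P).ncard = k}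

/-- `h(n) ≤ n² exp(52 √(log n))` for all `n ≥ 3`, attained by explicit sets; in particular
`h(n) ≤ C_ε n^(2+ε)` for every `ε > 0`. -/
theorem result :
    (∀ P : Finset Pl, GenPos P → (Radii P).Finite) ∧
    (∀ n : ℕ, 3 ≤ n → ∃ P : Finset Pl, P.card = n ∧ GenPos P ∧
      ((Radii P).ncard : ℝ) ≤ (n : ℝ) ^ 2 * Real.exp (52 * √(Real.log n))) ∧
    (∀ n : ℕ, 3 ≤ n → (h n : ℝ) ≤ (n : ℝ) ^ 2 * Real.exp (52 * √(Real.log n))) ∧
    ∀ ε : ℝ, 0 < ε → ∃ C : ℝ, 0 < C ∧ ∀ n : ℕ, 3 ≤ n → (h n : ℝ) ≤ C * (n : ℝ) ^ (2 + ε) := by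
  have h1 : ∀ n : ℕ, 3 ≤ n → (h n : ℝ) ≤ (n : ℝ) ^ 2 * Real.exp (52 * √(Real.log n)) := by
    intro n hn
    obtain ⟨P, p1, p2, -, p4⟩ := main n hn
    refine le_trans ?_ p4
    have h2 : h n ≤ (Radii P).ncard := Nat.sInf_le ⟨P, p1, p2, rfl⟩
    exact_mod_cast h2
  refine ⟨fun P hP => radii_finite P hP, fun n hn => ?_, h1, ?_⟩
  · obtain ⟨P, p1, p2, -, p4⟩ := main n hn
    exact ⟨P, p1, p2, p4⟩
  · intro ε hε
    refine ⟨Real.exp (676 / ε), Real.exp_pos _, fun n hn => (h1 n hn).trans ?_⟩
    have hn0 : (3 : ℝ) ≤ n := by exact_mod_cast hn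
    have hnpos : (0 : ℝ) < n := by linarith
    have hlog : 0 ≤ Real.log n := Real.log_natCast_nonneg n
    set L := √(Real.log n) with hL
    have hL2 : L * L = Real.log n := Real.mul_self_sqrt hlog
    have e1 : (n : ℝ) ^ 2 * Real.exp (52 * L) = Real.exp (2 * Real.log n + 52 * L) := by
      rw [Real.exp_add, ← Real.log_rpow hnpos, Real.exp_log (by positivity)]
      norm_num
    have e2 : Real.exp (676 / ε) * (n : ℝ) ^ (2 + ε) =
        Real.exp (676 / ε + (2 + ε) * Real.log n) := by
      rw [Real.exp_add, ← Real.log_rpow hnpos, Real.exp_log (by positivity)]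
    rw [e1, e2, Real.exp_le_exp, ← hL2]
    have e3 : 676 / ε + ε * (L * L) - 52 * L = (26 - ε * L) ^ 2 / ε := by
      field_simp
      ring
    have e4 : 0 ≤ (26 - ε * L) ^ 2 / ε := by positivity
    nlinarith

end Pool.Agent.Results.MP_cd3201_co.QuadraticUpperBound
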